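import Pool.Agent.Q40.OD.Fam5

/-!
MP_602153_ag: regular models, projective and flat over the integers, for a positive proportion of the
members of every family of hypersurfaces over the integers whose degenerate members have codimension
at least two.

Let `F` be a form of degree `d ≥ 2` in `n + 2` variables, `n ≥ 1`, whose coefficients are arbitrary
polynomials with integral coefficients in parameters `t_1, ..., t_m`, and let its generic member be
smooth. Suppose that the members of the family over the algebraic closure of the rational numbers with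
a degenerate singular point (not invertible Hessian) have codimension at least two: there are
finitely many polynomials in the parameters without common factor which vanish at them. Then there is
a local-global principle:

1. if for every prime number `p` there is an integral parameter for which the scheme of the member
   over the integers is regular over `p` or has only nondegenerate singular points in the fibre over
   `p`, then for a positive proportion of the integral parameters `t` the member `F_t` is smooth over
   the rational numbers and has a regular projective flat model over the integers;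
2. if for every prime number `p` there is an integral parameter for which the fibre over `p` of the
   member has only nondegenerate singular points, then for a positive proportion of the integral
   parameters `t` the member `F_t` is smooth over the rational numbers, and for every number field
   `K` the hypersurface `F_t = 0` over `K` has a regular projective flat model over the integers.
-/

set_option autoImplicit false

open AlgebraicGeometry CategoryTheory CategoryTheory.Limits MvPolynomial

open scoped NumberField

namespace Pool.Agent.Results.MP_602153_ag.FamiliesOverIntegers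

/-- The number of the integral parameters of absolute value at most `H` with the property `P`. -/
noncomputable def count (m H : ℕ) (P : (Fin m → ℤ) → Prop) : ℝ :=
  Nat.card {t : Fin m → ℤ // (∀ i, |t i| ≤ H) ∧ P t}

/-- A positive proportion of the integral parameters has the property `P`. -/
def HoldsForPositiveProportion (m : ℕ) (P : (Fin m → ℤ) → Prop) : Prop :=
  ∃ δ : ℝ, 0 < δ ∧ ∃ H₀ : ℕ, ∀ H : ℕ, H₀ ≤ H →
    δ * count m H (fun _ => True) ≤ count m H P

/-- The polynomial in the variables `X j`, `j ≠ s`, obtained from `H` by setting `X s = 1`: the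
equation of the hypersurface `H = 0` in the chart `X s ≠ 0` of the projective space over `R`. -/
noncomputable def dehom {R : Type} [CommRing R] {m : ℕ} (s : Fin m) (H : MvPolynomial (Fin m) R) :
    MvPolynomial {j : Fin m // j ≠ s} R :=
  aeval (fun j => if h : j = s then 1 else X ⟨j, h⟩) H

/-- The matrix of the second derivatives. -/
noncomputable def hessian {R σ : Type} [CommRing R] (f : MvPolynomial σ R) :
    Matrix σ σ (MvPolynomial σ R) :=
  Matrix.of fun a b => pderiv a (pderiv b f)

/-- The singular points with coordinates in the field `κ` of the hypersurface `G = 0` are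
nondegenerate: in every chart, at every point where the equation and its partial derivatives vanish,
the determinant of the Hessian is not zero. -/
def HasNondegenerateSingularities {κ : Type} [Field κ] {m : ℕ} (G : MvPolynomial (Fin m) κ) :
    Prop :=
  ∀ (s : Fin m) (P : {j : Fin m // j ≠ s} → κ), eval P (dehom s G) = 0 →
    (∀ j, eval P (pderiv j (dehom s G)) = 0) → ((hessian (dehom s G)).map (eval P)).det ≠ 0

/-- The ideal `Q` of the polynomial ring over `R` lies over `𝔭`. -/
def LiesAbove {R σ : Type} [CommRing R] (𝔭 : Ideal R) (Q : Ideal (MvPolynomial σ R)) : Prop :=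
  ∀ r : R, C r ∈ Q ↔ r ∈ 𝔭

/-- The scheme `H = 0` in the projective space over `R` is regular at its points over `𝔭`: for every
chart `s` and every prime `Q` of the polynomial ring of the chart lying over `𝔭` and containing the
equation, the equation is not in the square of the maximal ideal of the localization at `Q`. -/
def IsRegularAt {R : Type} [CommRing R] (𝔭 : Ideal R) {m : ℕ} (H : MvPolynomial (Fin m) R) :
    Prop :=
  ∀ (s : Fin m) (Q : Ideal (MvPolynomial {j : Fin m // j ≠ s} R)), Q.IsPrime →
    LiesAbove 𝔭 Q → dehom s H ∈ Q → ∀ h, h ∉ Q → h * dehom s H ∉ Q ^ 2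

/-- The singular points of the fibre over `𝔭` of the scheme `H = 0` are nondegenerate: for every chart
`s` and every prime `Q` of the polynomial ring of the chart lying over `𝔭` and containing the
equation and its partial derivatives, the determinant of the Hessian is not in `Q`. -/
def IsNondegenerateAt {R : Type} [CommRing R] (𝔭 : Ideal R) {m : ℕ}
    (H : MvPolynomial (Fin m) R) : Prop :=
  ∀ (s : Fin m) (Q : Ideal (MvPolynomial {j : Fin m // j ≠ s} R)), Q.IsPrime →
    LiesAbove 𝔭 Q → dehom s H ∈ Q → (∀ j, pderiv j (dehom s H) ∈ Q) →
      (hessian (dehom s H)).det ∉ Q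

/-- The partial derivatives of `G` have no common zero (over an algebraic closure) but the origin:
every variable has a power in the ideal they generate. -/
def IsSmooth {K : Type} [Field K] {m : ℕ} (G : MvPolynomial (Fin m) K) : Prop :=
  ∀ i, X i ∈ (Ideal.span (Set.range fun j => pderiv j G)).radical

/-- The member of the family `F` at `t`, over the ring `A`. -/
noncomputable def member {A : Type} [CommRing A] {k m : ℕ}
    (F : MvPolynomial (Fin k) (MvPolynomial (Fin m) ℤ)) (t : Fin m → A) :
    MvPolynomial (Fin k) A :=
  map (eval₂Hom (Int.castRingHom A) t) F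

/-- The generic member of the family `F`, over the field of rational functions of the parameters, is
smooth. -/
def HasSmoothGenericMember {k m : ℕ} (F : MvPolynomial (Fin k) (MvPolynomial (Fin m) ℤ)) : Prop :=
  IsSmooth (map (algebraMap (MvPolynomial (Fin m) ℤ) (FractionRing (MvPolynomial (Fin m) ℤ))) F)

/-- The polynomials in `B` have no common factor over the rational numbers but constants. -/
def HasNoCommonFactor {m : ℕ} (B : Set (MvPolynomial (Fin m) ℤ)) : Prop :=
  ∀ P : MvPolynomial (Fin m) ℚ, (∀ b ∈ B, P ∣ map (Int.castRingHom ℚ) b) → IsUnit P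

/-- The degenerate members of the family `F` have codimension at least two: finitely many polynomials
in the parameters without common factor vanish at all parameters over the algebraic closure of the
rational numbers for which the member has a degenerate singular point. -/
def DegenerateMembersHaveCodimensionTwo {k m : ℕ}
    (F : MvPolynomial (Fin k) (MvPolynomial (Fin m) ℤ)) : Prop :=
  ∃ B : Set (MvPolynomial (Fin m) ℤ), B.Finite ∧ HasNoCommonFactor B ∧
    ∀ t : Fin m → AlgebraicClosure ℚ,
      (∃ b ∈ B, eval₂ (Int.castRingHom (AlgebraicClosure ℚ)) t b ≠ 0) →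
      HasNondegenerateSingularities (member F t)

/-- The dimensions of the local rings of `A` equal the dimensions of their cotangent spaces. -/
def HasRegularLocalRings (A : Type) [CommRing A] : Prop :=
  ∀ p : PrimeSpectrum A, ringKrullDim (Localization.AtPrime p.asIdeal) =
    (((Module.finrank (IsLocalRing.ResidueField (Localization.AtPrime p.asIdeal))
      (IsLocalRing.CotangentSpace (Localization.AtPrime p.asIdeal)) : ℕ) : ℕ∞) : WithBot ℕ∞)

/-- The local rings of the locally Noetherian scheme `Y` are regular. -/
def IsRegularScheme (Y : Scheme.{0}) : Prop :=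
  IsLocallyNoetherian Y ∧
  ∀ U : Y.affineOpens, HasRegularLocalRings (Y.presheaf.obj (Opposite.op U.1))

/-- `Y` is projective over the integers. -/
def IsProjectiveOverInt (Y : Scheme.{0}) : Prop :=
  ∃ (A : Type) (_ : CommRing A) (𝒜 : ℕ → Submodule ℤ A) (_ : GradedAlgebra 𝒜),
    (∀ a ∈ 𝒜 0, ∃ n : ℤ, (n : A) = a) ∧
    (∃ s : Finset A, (∀ a ∈ s, a ∈ 𝒜 1) ∧ Algebra.adjoin ℤ (s : Set A) = ⊤) ∧
    Nonempty (Y ≅ Proj 𝒜)

/-- The generic fibre of `Y` is isomorphic to `V`. -/
def HasGenericFibre (Y V : Scheme.{0}) : Prop :=
  Nonempty (pullback (specZIsTerminal.from Y)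
      (specZIsTerminal.from (Spec (CommRingCat.of ℚ))) ≅ V)

/-- `Y` is an integral regular locally Noetherian scheme, projective and flat over the integers,
with generic fibre `V`. -/
def IsRegularProjectiveFlatModel (V Y : Scheme.{0}) : Prop :=
  IsIntegral Y ∧ IsRegularScheme Y ∧ IsProjectiveOverInt Y ∧ Flat (specZIsTerminal.from Y) ∧
    HasGenericFibre Y V

/-- Every scheme `V` isomorphic to the hypersurface `Proj (K[X] / (G))`, viewed over the rational
numbers, has a regular projective flat model over the integers. -/
def HypersurfaceHasModel {K : Type} [Field K] {m : ℕ} (G : MvPolynomial (Fin m) K) :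
    Prop :=
  ∀ (B : Type) [CommRing B] [Algebra K B]
    (π : MvPolynomial (Fin m) K →ₐ[K] B), Function.Surjective π →
    RingHom.ker π = Ideal.span {G} →
  ∀ (ℬ : ℕ → Submodule K B) [GradedAlgebra ℬ],
    (∀ d, ℬ d = (homogeneousSubmodule (Fin m) K d).map π.toLinearMap) →
  ∀ (V : Scheme.{0}), Nonempty (V ≅ Proj ℬ) → ∃ Y, IsRegularProjectiveFlatModel V Y

/-- The hypersurface `f = 0` is smooth over the rational numbers and has a regular projective flat
model over the integers. -/
def HasModelOverRationals {m : ℕ} (f : MvPolynomial (Fin m) ℤ) : Prop :=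
  IsSmooth (map (Int.castRingHom ℚ) f) ∧ HypersurfaceHasModel (map (Int.castRingHom ℚ) f)

/-- The hypersurface `f = 0` is smooth over the rational numbers, and for every number field `K` the
hypersurface `f = 0` over `K` has a regular projective flat model over the integers. -/
def HasModelsOverAllFields {m : ℕ} (f : MvPolynomial (Fin m) ℤ) : Prop :=
  IsSmooth (map (Int.castRingHom ℚ) f) ∧
    ∀ (K : Type) [Field K] [NumberField K], HypersurfaceHasModel (map (Int.castRingHom K) f)

theorem result :
    ∀ n d m : ℕ, 1 ≤ n → 2 ≤ d → 1 ≤ m →
      ∀ F : MvPolynomial (Fin (n + 2)) (MvPolynomial (Fin m) ℤ), F.IsHomogeneous d →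
      HasSmoothGenericMember F → DegenerateMembersHaveCodimensionTwo F →
      ((∀ p : ℕ, p.Prime → ∃ t : Fin m → ℤ, IsRegularAt (Ideal.span {(p : ℤ)}) (member F t) ∨
          IsNondegenerateAt (Ideal.span {(p : ℤ)}) (member F t)) →
        HoldsForPositiveProportion m fun t => HasModelOverRationals (member F t)) ∧
      ((∀ p : ℕ, p.Prime → ∃ t : Fin m → ℤ,
          IsNondegenerateAt (Ideal.span {(p : ℤ)}) (member F t)) →
        HoldsForPositiveProportion m fun t => HasModelsOverAllFields (member F t)) := by
  intro n d m hn hd hm F hF hgen ⟨B, hB, hcop, hnd⟩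
  have hall : ∀ H : ℕ, count m H (fun _ => True) =
      (Nat.card {t : Fin m → ℤ // ∀ i, |t i| ≤ H} : ℝ) := by
    intro H
    unfold count
    simp only [and_true]
  have crit : ∀ (K : Type) [Field K] [NumberField K],
      ∀ G : MvPolynomial (Fin (n + 2)) K, G.IsHomogeneous d → IsSmooth G →
      Pool.Agent.Q40.OD.LocGood (𝓞 K) G → HypersurfaceHasModel G := by
    intro K _ _ G hG hsm hloc B _ _ π hπ hker ℬ _ hℬ V hV
    obtain ⟨Y, hi, hn, hr, hp, hf, hg⟩ :=
      Pool.Agent.Q40.OD.od_model_Z hn G d hd hG hsm hloc π hπ hker ℬ hℬ V hV
    exact ⟨Y, hi, ⟨hn, hr⟩, hp, hf, hg⟩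
  have hmono : ∀ (H : ℕ) (P P' : (Fin m → ℤ) → Prop), (∀ t, P t → P' t) →
      (Nat.card {t : Fin m → ℤ // (∀ i, |t i| ≤ H) ∧ P t} : ℝ) ≤ count m H P' := by
    intro H P P' h
    exact Pool.Agent.Q272.OD.card_mono H P P' fun t _ => h t
  have hmem : ∀ t : Fin m → ℤ, Pool.Agent.Q40.OD.mem (RingHom.id ℤ) F t = member F t := by
    intro t
    have h1 : RingHom.id ℤ = Int.castRingHom ℤ := RingHom.ext_int _ _
    rw [h1]
    rfl
  constructor
  · intro hex
    obtain ⟨δ, hδ, H₀, h⟩ := Pool.Agent.Q40.OD.family_pos hm F hF hgen B hB hcop hnd
      (fun p f => Pool.Agent.TH214.RM.Crit (Ideal.span {(p : ℤ)}) f ∨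
        Pool.Agent.Q40.OD.Nondeg (Ideal.span {(p : ℤ)}) f)
      (fun p f g hfg h => h.elim
        (fun h => Or.inl (Pool.Agent.Q40.OD.crit_congr _ f g hfg h))
        (fun h => Or.inr (Pool.Agent.Q40.OD.nondeg_congr _ f g
          (fun μ => Ideal.pow_le_self two_ne_zero (hfg μ)) h)))
      (fun p f h => Or.inr h)
      (fun p hp => by
        obtain ⟨t, ht⟩ := hex p hp
        refine ⟨t, ?_⟩
        rw [hmem]
        rcases ht with ht | ht
        · exact Or.inl fun s Q hQ hC hG => Or.inr (ht s Q hQ hC hG)
        · exact Or.inr ht)
    refine ⟨δ, hδ, H₀, fun H hH => ?_⟩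
    rw [hall]
    refine (h H hH).trans (hmono H _ _ fun t ht => ?_)
    refine ⟨ht.1, ?_⟩
    exact crit ℚ _ ((Pool.Agent.Q40.OD.mem_homog (RingHom.id ℤ) F hF t).map _) ht.1
      (Pool.Agent.Q40.OD.locGood_rat _ ht.2)
  · intro hex
    obtain ⟨δ, hδ, H₀, h⟩ := Pool.Agent.Q40.OD.family_pos hm F hF hgen B hB hcop hnd
      (fun p f => Pool.Agent.Q40.OD.Nondeg (Ideal.span {(p : ℤ)}) f)
      (fun p f g hfg h => Pool.Agent.Q40.OD.nondeg_congr _ f g
          (fun μ => Ideal.pow_le_self two_ne_zero (hfg μ)) h)
      (fun p f h => h) hex
    refine ⟨δ, hδ, H₀, fun H hH => ?_⟩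
    rw [hall]
    refine (h H hH).trans (hmono H _ _ fun t ht => ?_)
    refine ⟨ht.1, ?_⟩
    intro K _ _
    have hft := Pool.Agent.Q40.OD.mem_homog (RingHom.id ℤ) F hF t
    have hsmK : Pool.Agent.TH214.RM.Smooth (map (Int.castRingHom K) (member F t)) := by
      have h1 := Pool.Agent.Q40.OD.smooth_map (algebraMap ℚ K) _ ht.1
      rw [map_map] at h1
      have h2 : (algebraMap ℚ K).comp (Int.castRingHom ℚ) = Int.castRingHom K :=
        RingHom.ext_int _ _
      rwa [h2] at h1
    exact crit K _ (hft.map _) hsmK (Pool.Agent.Q40.OD.locGood_of_nondeg 1 (by simp) _ d hft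
      ht.1 fun p hp _ => ht.2 p hp)

end Pool.Agent.Results.MP_602153_ag.FamiliesOverIntegers
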