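import Pool.Agent.Q40.OD.Res

/-!
MP_602153_ag: regular models, projective and flat over the integers, for a positive proportion of all
hypersurfaces of each degree `d ≥ 3` and each dimension `n ≥ 1`, over all number fields at once.

For all `n ≥ 1`, `d ≥ 3` a positive proportion of all forms `f` of degree `d` in `n + 2` variables with
integral coefficients has the property: for every number field `K` the hypersurface `f = 0` over `K`
is smooth and has a regular projective flat model over the integers.
-/

set_option autoImplicit false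

open AlgebraicGeometry CategoryTheory CategoryTheory.Limits MvPolynomial

open scoped NumberField

namespace Pool.Agent.Results.MP_602153_ag.PositiveProportion

/-- The forms of degree `d` in `n + 2` variables with integral coefficients of absolute value at
most `H`. -/
def IsBoundedForm (n d H : ℕ) (f : MvPolynomial (Fin (n + 2)) ℤ) : Prop :=
  f.IsHomogeneous d ∧ ∀ m, |coeff m f| ≤ H

/-- The number of the forms of degree `d` in `n + 2` variables with integral coefficients of absolute
value at most `H` which have the property `P`. -/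
noncomputable def count (n d H : ℕ) (P : MvPolynomial (Fin (n + 2)) ℤ → Prop) : ℝ :=
  Nat.card {f : MvPolynomial (Fin (n + 2)) ℤ // IsBoundedForm n d H f ∧ P f}

/-- A positive proportion of the forms of degree `d` in `n + 2` variables has the property `P`. -/
def HoldsForPositiveProportion (n d : ℕ) (P : MvPolynomial (Fin (n + 2)) ℤ → Prop) : Prop :=
  ∃ δ : ℝ, 0 < δ ∧ ∃ H₀ : ℕ, ∀ H : ℕ, H₀ ≤ H →
    δ * count n d H (fun _ => True) ≤ count n d H P

/-- The partial derivatives of `G` have no common zero (over an algebraic closure) but the origin: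
every variable has a power in the ideal they generate. -/
def IsSmooth {K : Type} [Field K] {m : ℕ} (G : MvPolynomial (Fin m) K) : Prop :=
  ∀ i, X i ∈ (Ideal.span (Set.range fun j => pderiv j G)).radical

/-- The dimensions of the local rings of `A` equal the dimensions of their cotangent spaces. -/
def HasRegularLocalRings (A : Type) [CommRing A] : Prop :=
  ∀ p : PrimeSpectrum A, ringKrullDim (Localization.AtPrime p.asIdeal) =
    (((Module.finrank (IsLocalRing.ResidueField (Localization.AtPrime p.asIdeal))
      (IsLocalRing.CotangentSpace (Localization.AtPrime p.asIdeal)) : ℕ) : ℕ∞) : WithBot ℕ∞)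

/-- The local rings of the locally Noetherian scheme `Y` are regular. -/
def IsRegularScheme (Y : Scheme.{0}) : Prop :=
  IsLocallyNoetherian Y ∧
  ∀ U : Y.affineOpens, HasRegularLocalRings (Y.presheaf.obj (Opposite.op U.1))

/-- `Y` is projective over the integers. -/
def IsProjectiveOverInt (Y : Scheme.{0}) : Prop :=
  ∃ (A : Type) (_ : CommRing A) (𝒜 : ℕ → Submodule ℤ A) (_ : GradedAlgebra 𝒜),
    (∀ a ∈ 𝒜 0, ∃ n : ℤ, (n : A) = a) ∧
    (∃ s : Finset A, (∀ a ∈ s, a ∈ 𝒜 1) ∧ Algebra.adjoin ℤ (s : Set A) = ⊤) ∧
    Nonempty (Y ≅ Proj 𝒜)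

/-- The generic fibre of `Y` is isomorphic to `V`. -/
def HasGenericFibre (Y V : Scheme.{0}) : Prop :=
  Nonempty (pullback (specZIsTerminal.from Y)
      (specZIsTerminal.from (Spec (CommRingCat.of ℚ))) ≅ V)

/-- `Y` is an integral regular locally Noetherian scheme, projective and flat over the integers,
with generic fibre `V`. -/
def IsRegularProjectiveFlatModel (V Y : Scheme.{0}) : Prop :=
  IsIntegral Y ∧ IsRegularScheme Y ∧ IsProjectiveOverInt Y ∧ Flat (specZIsTerminal.from Y) ∧
    HasGenericFibre Y V

/-- Every scheme `V` isomorphic to the hypersurface `Proj (K[X] / (G))`, viewed over the rational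
numbers, has a regular projective flat model over the integers. -/
def HypersurfaceHasModel {K : Type} [Field K] {m : ℕ} (G : MvPolynomial (Fin m) K) :
    Prop :=
  ∀ (B : Type) [CommRing B] [Algebra K B]
    (π : MvPolynomial (Fin m) K →ₐ[K] B), Function.Surjective π →
    RingHom.ker π = Ideal.span {G} →
  ∀ (ℬ : ℕ → Submodule K B) [GradedAlgebra ℬ],
    (∀ d, ℬ d = (homogeneousSubmodule (Fin m) K d).map π.toLinearMap) →
  ∀ (V : Scheme.{0}), Nonempty (V ≅ Proj ℬ) → ∃ Y, IsRegularProjectiveFlatModel V Y

/-- For every number field `K` the hypersurface `f = 0` over `K` is smooth and has a regular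
projective flat model over the integers. -/
def HasModelsOverAllFields {m : ℕ} (f : MvPolynomial (Fin m) ℤ) : Prop :=
  ∀ (K : Type) [Field K] [NumberField K],
    IsSmooth (map (Int.castRingHom K) f) ∧ HypersurfaceHasModel (map (Int.castRingHom K) f)

theorem result :
    ∀ n d : ℕ, 1 ≤ n → 3 ≤ d → HoldsForPositiveProportion n d HasModelsOverAllFields := by
  intro n d hn hd
  have hall : ∀ H : ℕ, count n d H (fun _ => True) =
      (Nat.card {f : MvPolynomial (Fin (n + 2)) ℤ // f.IsHomogeneous d ∧
        ∀ m, |coeff m f| ≤ H} : ℝ) := by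
    intro H
    unfold count IsBoundedForm
    simp only [and_true]
  have hcount : ∀ (H : ℕ) (P : MvPolynomial (Fin (n + 2)) ℤ → Prop), count n d H P =
      (Nat.card {f : MvPolynomial (Fin (n + 2)) ℤ // f.IsHomogeneous d ∧
        (∀ m, |coeff m f| ≤ H) ∧ P f} : ℝ) := by
    intro H P
    unfold count IsBoundedForm
    simp only [and_assoc]
  have hP : ∀ f : MvPolynomial (Fin (n + 2)) ℤ, f.IsHomogeneous d →
      Pool.Agent.Q40.OD.Good 1 f → HasModelsOverAllFields f := by
    intro f hf hgood K _ _
    have hsmK : Pool.Agent.TH214.RM.Smooth (map (Int.castRingHom K) f) := by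
      have h1 := Pool.Agent.Q40.OD.smooth_map (algebraMap ℚ K) _ hgood.1
      rw [map_map] at h1
      have h2 : (algebraMap ℚ K).comp (Int.castRingHom ℚ) = Int.castRingHom K :=
        RingHom.ext_int _ _
      rwa [h2] at h1
    have hloc : Pool.Agent.Q40.OD.LocGood (𝓞 K) (map (Int.castRingHom K) f) :=
      Pool.Agent.Q40.OD.locGood_of_nondeg 1 (by simp) f d hf hgood.1 hgood.2
    refine ⟨hsmK, ?_⟩
    intro B _ _ π hπ hker ℬ _ hℬ V hV
    obtain ⟨Y, hi, hn', hr, hp, hf', hg⟩ :=
      Pool.Agent.Q40.OD.od_model_Z hn _ d (by omega) (hf.map _) hsmK hloc π hπ hker ℬ hℬ V hV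
    exact ⟨Y, hi, ⟨hn', hr⟩, hp, hf', hg⟩
  obtain ⟨δ, hδ, H₀, h⟩ := Pool.Agent.Q40.OD.density_pos n d hd HasModelsOverAllFields hP
  refine ⟨δ, hδ, H₀, fun H hH => ?_⟩
  rw [hall, hcount]
  exact h H hH

end Pool.Agent.Results.MP_602153_ag.PositiveProportion
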