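import Pool.Agent.Q46.ND.Uni

/-!
MP_602153_ag: almost all hypersurfaces in residue classes with nondegenerate reductions have regular
projective flat models over the integers, over all number fields at once.

Let `K` be a number field, `n ≥ 1`, `d ≥ 2`. The forms of degree `d` in `n + 2` variables over the
integers of `K` are counted in boxes: the coordinates of the coefficients with respect to a fixed
`ℤ`-basis of the integers are at most `H` in absolute value, and `H` tends to infinity. There is a
constant `C₀`, which depends on `K`, the basis, `n` and `d` only, such that for all `M, k ≥ 1` and all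
forms `F₀` which have at the primes dividing `M!` only nondegenerate singular points (invertible
Hessian; any number of them, also in residue characteristic two): for a proportion at least
`1 - C₀ / M` of all forms `G` the hypersurface `F₀ + (M!) ^ k G = 0` over every number field `L`
containing `K` is smooth and, viewed over `ℚ`, has a regular projective flat model over `ℤ`.
-/

set_option autoImplicit false

open AlgebraicGeometry CategoryTheory CategoryTheory.Limits MvPolynomial

open scoped NumberField

namespace Pool.Agent.Results.MP_602153_ag.ResidueClasses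

/-- The polynomial in the variables `X j`, `j ≠ s`, obtained from `F` by setting `X s = 1`: the
equation of the hypersurface `F = 0` in the chart `X s ≠ 0` of the projective space over `R`. -/
noncomputable def dehom {R : Type} [CommRing R] {m : ℕ} (s : Fin m) (F : MvPolynomial (Fin m) R) :
    MvPolynomial {j : Fin m // j ≠ s} R :=
  aeval (fun j => if h : j = s then 1 else X ⟨j, h⟩) F

/-- The ideal `Q` of the polynomial ring over `R` lies over `𝔭`. -/
def LiesAbove {R σ : Type} [CommRing R] (𝔭 : Ideal R) (Q : Ideal (MvPolynomial σ R)) : Prop :=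
  ∀ r : R, C r ∈ Q ↔ r ∈ 𝔭

/-- The matrix of the second derivatives. -/
noncomputable def hessian {R σ : Type} [CommRing R] (f : MvPolynomial σ R) :
    Matrix σ σ (MvPolynomial σ R) :=
  Matrix.of fun a b => pderiv a (pderiv b f)

/-- The singular points of the fibre over `𝔭` of the scheme `F = 0` are nondegenerate: for every
chart `s` and every prime `Q` of the polynomial ring of the chart lying over `𝔭` and containing the
equation and its partial derivatives, the determinant of the Hessian matrix is not in `Q`. -/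
def HasNondegenerateFibre {R : Type} [CommRing R] (𝔭 : Ideal R) {m : ℕ}
    (F : MvPolynomial (Fin m) R) : Prop :=
  ∀ (s : Fin m) (Q : Ideal (MvPolynomial {j : Fin m // j ≠ s} R)), Q.IsPrime →
    LiesAbove 𝔭 Q → dehom s F ∈ Q → (∀ j, pderiv j (dehom s F) ∈ Q) →
      (hessian (dehom s F)).det ∉ Q

/-- The partial derivatives of `G` have no common zero (over an algebraic closure) but the origin:
every variable has a power in the ideal they generate. -/
def IsSmooth {E : Type} [Field E] {m : ℕ} (G : MvPolynomial (Fin m) E) : Prop :=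
  ∀ i, X i ∈ (Ideal.span (Set.range fun j => pderiv j G)).radical

/-- The form over `E` given by a form over `R`. -/
noncomputable def baseChange {R : Type} [CommRing R] (E : Type) [CommRing E] [Algebra R E] {m : ℕ}
    (F : MvPolynomial (Fin m) R) : MvPolynomial (Fin m) E :=
  map (algebraMap R E) F

/-- The forms of degree `d` in `m` variables over the integers of `K` such that the coordinates of
all coefficients with respect to the basis `ω` are at most `H` in absolute value. -/
def formsUpTo {K ι : Type} [Field K] (ω : Module.Basis ι ℤ (𝓞 K)) (m d H : ℕ) :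
    Set (MvPolynomial (Fin m) (𝓞 K)) :=
  {F | F.IsHomogeneous d ∧ ∀ α i, |ω.repr (coeff α F) i| ≤ (H : ℤ)}

/-- For all sufficiently large `H` the proportion of the forms with property `P` among the forms
with coordinates at most `H` is at least `c`. -/
def AtLeast {K ι : Type} [Field K] (ω : Module.Basis ι ℤ (𝓞 K)) (m d : ℕ) (c : ℝ)
    (P : MvPolynomial (Fin m) (𝓞 K) → Prop) : Prop :=
  ∃ H₀ : ℕ, ∀ H : ℕ, H₀ ≤ H →
    c * ((formsUpTo ω m d H).ncard : ℝ) ≤ ({F ∈ formsUpTo ω m d H | P F}.ncard : ℝ)

/-- The dimensions of the local rings of `A` equal the dimensions of their cotangent spaces. -/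
def HasRegularLocalRings (A : Type) [CommRing A] : Prop :=
  ∀ p : PrimeSpectrum A, ringKrullDim (Localization.AtPrime p.asIdeal) =
    (((Module.finrank (IsLocalRing.ResidueField (Localization.AtPrime p.asIdeal))
      (IsLocalRing.CotangentSpace (Localization.AtPrime p.asIdeal)) : ℕ) : ℕ∞) : WithBot ℕ∞)

/-- The local rings of the locally Noetherian scheme `Y` are regular. -/
def IsRegularScheme (Y : Scheme.{0}) : Prop :=
  IsLocallyNoetherian Y ∧
  ∀ U : Y.affineOpens, HasRegularLocalRings (Y.presheaf.obj (Opposite.op U.1))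

/-- `Y` is projective over the integers. -/
def IsProjectiveOverInt (Y : Scheme.{0}) : Prop :=
  ∃ (A : Type) (_ : CommRing A) (𝒜 : ℕ → Submodule ℤ A) (_ : GradedAlgebra 𝒜),
    (∀ a ∈ 𝒜 0, ∃ n : ℤ, (n : A) = a) ∧
    (∃ s : Finset A, (∀ a ∈ s, a ∈ 𝒜 1) ∧ Algebra.adjoin ℤ (s : Set A) = ⊤) ∧
    Nonempty (Y ≅ Proj 𝒜)

/-- The generic fibre of `Y` is isomorphic to `V`. -/
def HasGenericFibre (Y V : Scheme.{0}) : Prop :=
  Nonempty (pullback (specZIsTerminal.from Y)
      (specZIsTerminal.from (Spec (CommRingCat.of ℚ))) ≅ V)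

/-- `Y` is an integral regular locally Noetherian scheme, projective and flat over the integers,
with generic fibre `V`. -/
def IsRegularProjectiveFlatModel (V Y : Scheme.{0}) : Prop :=
  IsIntegral Y ∧ IsRegularScheme Y ∧ IsProjectiveOverInt Y ∧ Flat (specZIsTerminal.from Y) ∧
    HasGenericFibre Y V

/-- Every scheme `V` isomorphic to the hypersurface `Proj (K[X] / (G))`, viewed over the rational
numbers, has a regular projective flat model over the integers. -/
def HypersurfaceHasModel {K : Type} [Field K] {m : ℕ} (G : MvPolynomial (Fin m) K) :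
    Prop :=
  ∀ (B : Type) [CommRing B] [Algebra K B]
    (π : MvPolynomial (Fin m) K →ₐ[K] B), Function.Surjective π →
    RingHom.ker π = Ideal.span {G} →
  ∀ (ℬ : ℕ → Submodule K B) [GradedAlgebra ℬ],
    (∀ d, ℬ d = (homogeneousSubmodule (Fin m) K d).map π.toLinearMap) →
  ∀ (V : Scheme.{0}), Nonempty (V ≅ Proj ℬ) → ∃ Y, IsRegularProjectiveFlatModel V Y

/-- For every number field `L` containing `K` the hypersurface `F = 0` over `L` is smooth and, viewed
over the rational numbers, has a regular projective flat model over the integers. -/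
def HasModelsOverAllFields {K : Type} [Field K] {m : ℕ} (F : MvPolynomial (Fin m) (𝓞 K)) : Prop :=
  ∀ (L : Type) [Field L] [NumberField L] [Algebra K L],
    IsSmooth (baseChange L (baseChange K F)) ∧ HypersurfaceHasModel (baseChange L (baseChange K F))

theorem result (K : Type) [Field K] [NumberField K] (ι : Type) [Fintype ι]
    (ω : Module.Basis ι ℤ (𝓞 K)) (n d : ℕ) (hn : 1 ≤ n) (hd : 2 ≤ d) :
    ∃ C₀ : ℝ, ∀ M k : ℕ, 1 ≤ M → 1 ≤ k →
      ∀ F₀ : MvPolynomial (Fin (n + 2)) (𝓞 K), F₀.IsHomogeneous d →
      (∀ 𝔭 : Ideal (𝓞 K), 𝔭.IsPrime → (M.factorial : 𝓞 K) ∈ 𝔭 → HasNondegenerateFibre 𝔭 F₀) →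
      AtLeast ω (n + 2) d (1 - C₀ / M) fun G =>
        HasModelsOverAllFields (F₀ + C ((M.factorial : 𝓞 K) ^ k) * G) := by
  obtain ⟨C₀, h⟩ := Pool.Agent.Q46.ND.uni_counts ω n d hd
  refine ⟨C₀, fun M k hM hk F₀ hF₀ hnd => ?_⟩
  obtain ⟨h1, -⟩ := h M 1 hM F₀ hF₀
  obtain ⟨H₀, hH₀⟩ := h1 k fun 𝔭 hp hM𝔭 _ => ⟨hk, hnd 𝔭 hp hM𝔭⟩
  refine ⟨H₀, fun H hH => Pool.Agent.Q46.ND.mono_count ω n d H _ _ _ ?_ (hH₀ H hH)⟩
  rintro G hG ⟨hsm, hnd'⟩ L _ _ _
  have hhom : (F₀ + C ((M.factorial : 𝓞 K) ^ k) * G).IsHomogeneous d := by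
    refine hF₀.add ?_
    have h1 := (isHomogeneous_C (Fin (n + 2)) ((M.factorial : 𝓞 K) ^ k)).mul hG
    rwa [zero_add] at h1
  rw [Nat.cast_one] at hnd'
  have hsmL := Pool.Agent.Q46.ND.smooth_map (algebraMap K L) _ hsm
  refine ⟨hsmL, ?_⟩
  intro B _ _ π hπ hker ℬ _ hℬ V hV
  obtain ⟨Y, hi, hn', hr, hp, hf', hg⟩ :=
    Pool.Agent.Q40.OD.od_model_Z hn _ d hd ((hhom.map _).map _) hsmL
      (Pool.Agent.Q46.ND.locGood_ext _ hnd') π hπ hker ℬ hℬ V hV
  exact ⟨Y, hi, ⟨hn', hr⟩, hp, hf', hg⟩

end Pool.Agent.Results.MP_602153_ag.ResidueClasses
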